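import Pool.Agent.H12R3.VR.Stmts

set_option autoImplicit false

namespace Pool.Agent.H300R3.VR

/-- Task T22 of the project H12-VR: the shear argument. -/
theorem t : H12VR.TaskShear := by
  intro h l₁ μ₁ ν₁ l₂ μ₂ ν₂ hz hl₁ hν₁ hl₂ hν₂ hne h1 h2 s1 s2
  have hν : ν₁ * ν₂ ≠ 0 := mul_ne_zero hν₁ hν₂
  set d : ℝ := μ₂ * (l₁ - ν₁) - μ₁ * (l₂ - ν₂) with hd
  have hd0 : d ≠ 0 := sub_ne_zero.mpr hne
  set r : ℝ := d / (ν₁ * ν₂) with hr
  have hr0 : r ≠ 0 := div_ne_zero hd0 hν
  have hrd : r * (ν₁ * ν₂) = d := div_mul_cancel₀ d hν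
  -- the two shears
  have hp : ∀ w, h (w + r * h w) = h w := by
    intro w
    obtain ⟨v, hv⟩ := s2 w
    obtain ⟨u, hu⟩ := s1 v
    simp only at hv hu
    have e1 : h v = ν₁ * h u := by rw [← hu, h1]
    have e2 : h w = ν₂ * h v := by rw [← hv, h2]
    have e3 : w + r * h w = l₁ * (l₂ * u + μ₂ * h u) + μ₁ * h (l₂ * u + μ₂ * h u) := by
      rw [h2 u, e2, e1, ← hv, e1, ← hu]
      have : r * (ν₂ * (ν₁ * h u)) = d * h u := by rw [← hrd]; ring
      rw [this, hd]
      ring
    rw [e3, h1, h2, e2, e1]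
    ring
  have hm : ∀ w, h (w - r * h w) = h w := by
    intro w
    obtain ⟨v, hv⟩ := s1 w
    obtain ⟨u, hu⟩ := s2 v
    simp only at hv hu
    have e1 : h v = ν₂ * h u := by rw [← hu, h2]
    have e2 : h w = ν₁ * h v := by rw [← hv, h1]
    have e3 : w - r * h w = l₂ * (l₁ * u + μ₁ * h u) + μ₂ * h (l₁ * u + μ₁ * h u) := by
      rw [h1 u, e2, e1, ← hv, e1, ← hu]
      have : r * (ν₁ * (ν₂ * h u)) = d * h u := by rw [← hrd]; ring
      rw [this, hd]
      ring
    rw [e3, h2, h1, e2, e1]
    ring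
  intro u
  by_contra hu
  have hP : ∀ n : ℕ, h (u + n * (r * h u)) = h u := by
    intro n
    induction n with
    | zero => simp
    | succ n ih =>
      have := hp (u + n * (r * h u))
      rw [ih] at this
      have e : u + ((n + 1 : ℕ) : ℝ) * (r * h u) = u + n * (r * h u) + r * h u := by
        push_cast
        ring
      rw [e]
      exact this
  have hM : ∀ n : ℕ, h (u - n * (r * h u)) = h u := by
    intro n
    induction n with
    | zero => simp
    | succ n ih =>
      have := hm (u - n * (r * h u))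
      rw [ih] at this
      have e : u - ((n + 1 : ℕ) : ℝ) * (r * h u) = u - n * (r * h u) - r * h u := by
        push_cast
        ring
      rw [e]
      exact this
  have hy : r * h u ≠ 0 := mul_ne_zero hr0 hu
  obtain ⟨n, hn⟩ := exists_nat_gt (|u| / |r * h u|)
  have hn' : |u| < n * |r * h u| := (div_lt_iff₀ (abs_pos.mpr hy)).1 hn
  have hlo : -|u| ≤ u := neg_abs_le u
  have hup : u ≤ |u| := le_abs_self u
  rcases lt_or_gt_of_ne hy with hneg | hpos
  · rw [abs_of_neg hneg] at hn'
    rcases hz with hz | hz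
    · have := hz (u - n * (r * h u)) (by linarith)
      rw [hM n] at this
      exact hu this
    · have := hz (u + n * (r * h u)) (by linarith)
      rw [hP n] at this
      exact hu this
  · rw [abs_of_pos hpos] at hn'
    rcases hz with hz | hz
    · have := hz (u + n * (r * h u)) (by linarith)
      rw [hP n] at this
      exact hu this
    · have := hz (u - n * (r * h u)) (by linarith)
      rw [hM n] at this
      exact hu this

end Pool.Agent.H300R3.VR
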